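import Pool.Agent.Helper40.ZU.Stmts
import Pool.Agent.Helper72.ZA.ZPH

/-!
Rows VPH and VOP of the sheet ZU (MP_7a8f48_an): functions which are almost periodic with the
period `k`, and periodic functions, along an orbit.
-/

open MeasureTheory Filter Topology Finset
open scoped ComplexConjugate

namespace Pool.Agent.Helper72.ZU

open Pool.Agent.Helper98.ZA (ST_ZMR)
open Pool.Agent.Helper40.ZU
open Pool.Agent.Helper16.MD (MS)
open Pool.Agent.Helper72.ZA (core)

/-- iterates are continuous almost everywhere -/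
theorem cts_iter {X : Type} [TopologicalSpace X] [MeasurableSpace X] {m : Measure X} {T : X → X}
    (hT : MeasurePreserving T m m) (hc : ∀ᵐ z ∂m, ContinuousAt T z) (i : ℕ) :
    ∀ᵐ z ∂m, ContinuousAt T^[i] z := by
  induction i with
  | zero => exact Eventually.of_forall fun z => continuousAt_id
  | succ i ih =>
    filter_upwards [hc, hT.quasiMeasurePreserving.ae ih] with z h1 h2
    rw [Function.iterate_succ]
    exact ContinuousAt.comp h2 h1

/-- **VPH** -/
theorem st_VPH (zmr : ST_ZMR) (vav : ST_VAV) : ST_VPH := by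
  intro Y _ _ _ _ L S y ν hLt m H P δ hm hδ hH hP hP2 hinv hd
  have := hLt.prob
  obtain ⟨hmp, hav⟩ := vav Y L S y ν hLt
  obtain ⟨J, hJ, hJN⟩ := zmr m (δ / 2) hm (by positivity)
  have hHm : Measurable (H : Y → ℂ) := H.continuous.measurable
  have hH2 : MemLp (H : Y → ℂ) 2 ν :=
    MemLp.of_bound hHm.aestronglyMeasurable 1 (Eventually.of_forall hH)
  have hSi : ∀ i : ℕ, MeasurePreserving S^[i] ν ν := fun i => hmp.iterate i
  -- the distance in the mean
  have hHP : MemLp (fun y => H y - P y) 2 ν := hH2.sub hP2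
  have hHPi : Integrable (fun y => H y - P y) ν := hHP.integrable (by norm_num)
  have hmean : ∫ y, ‖H y - P y‖ ∂ν ≤ δ := by
    have i1 : Integrable (fun y => ‖H y - P y‖ ^ 2) ν := hHP.integrable_norm_pow (by norm_num)
    have i2 : Integrable (fun y => ‖H y - P y‖) ν := hHPi.norm
    set c := ∫ y, ‖H y - P y‖ ∂ν with hc
    have hc0 : 0 ≤ c := integral_nonneg fun x => norm_nonneg _
    have h3 : 0 ≤ ∫ x, (‖H x - P x‖ - c) ^ 2 ∂ν := integral_nonneg fun x => sq_nonneg _
    have h4 : ∫ x, (‖H x - P x‖ - c) ^ 2 ∂ν = ∫ x, ‖H x - P x‖ ^ 2 ∂ν - c ^ 2 := by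
      have h5 : ∀ x, (‖H x - P x‖ - c) ^ 2 =
          ‖H x - P x‖ ^ 2 - (2 * c * ‖H x - P x‖ - c ^ 2) := fun x => by ring
      have i3 : Integrable (fun x => 2 * c * ‖H x - P x‖) ν := i2.const_mul (2 * c)
      have i4 : Integrable (fun x => 2 * c * ‖H x - P x‖ - c ^ 2) ν :=
        i3.sub (integrable_const _)
      simp only [h5]
      rw [integral_sub i1 i4, integral_sub i3 (integrable_const _), integral_const_mul, ← hc]
      simp
      ring
    rw [h4] at h3
    have h5 : c ^ 2 ≤ δ ^ 2 := by linarith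
    exact (pow_le_pow_iff_left₀ hc0 hδ.le (by norm_num)).1 h5
  have hinvj : ∀ j : ℕ, ∀ᵐ y ∂ν, P (S^[m * j] y) = P y := by
    intro j
    induction j with
    | zero => simp
    | succ j ih =>
      filter_upwards [ih, (hSi (m * j)).quasiMeasurePreserving.ae hinv] with y h1 h2
      rw [Nat.mul_succ, add_comm, Function.iterate_add_apply, h2, h1]
  obtain ⟨V, hV⟩ : ∃ V : ℕ → Y → ℝ, ∀ j y, V j y = ‖H (S^[m * j] y) - H y‖ :=
    ⟨fun j y => ‖H (S^[m * j] y) - H y‖, fun _ _ => rfl⟩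
  have hVmeas : ∀ j, Measurable (V j) := by
    intro j
    have : V j = fun y => ‖H (S^[m * j] y) - H y‖ := funext fun y => hV j y
    rw [this]
    exact ((hHm.comp (hLt.meas.iterate _)).sub hHm).norm
  have hVb : ∀ j y, |V j y| ≤ 2 := by
    intro j y
    rw [hV, abs_norm]
    exact (norm_sub_le _ _).trans (by linarith [hH (S^[m * j] y), hH y])
  have hVc : ∀ r j, ∀ᵐ z ∂ν, ContinuousAt (fun z => V j (S^[r] z)) z := by
    intro r j
    filter_upwards [cts_iter hmp hLt.cts r, cts_iter hmp hLt.cts (m * j + r)] with z h1 h2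
    have h3 : (fun z => V j (S^[r] z)) = fun z => ‖H (S^[m * j + r] z) - H (S^[r] z)‖ := by
      funext z
      rw [hV, Function.iterate_add_apply]
    rw [h3]
    exact ((H.continuous.continuousAt.comp h2).sub (H.continuous.continuousAt.comp h1)).norm
  have hVm : ∀ j, ∫ y, V j y ∂ν ≤ 2 * δ := by
    intro j
    have i1 : Integrable (fun y => ‖H (S^[m * j] y) - P (S^[m * j] y)‖) ν :=
      (hSi (m * j)).integrable_comp_of_integrable hHPi.norm
    have i2 : Integrable (fun y => ‖H y - P y‖) ν := hHPi.norm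
    have e1 : ∫ y, ‖H (S^[m * j] y) - P (S^[m * j] y)‖ ∂ν = ∫ y, ‖H y - P y‖ ∂ν := by
      have hmm : AEStronglyMeasurable (fun y => ‖H y - P y‖) (ν.map S^[m * j]) := by
        rw [(hSi (m * j)).map_eq]
        exact i2.aestronglyMeasurable
      have := integral_map (hSi (m * j)).measurable.aemeasurable hmm
      rw [(hSi (m * j)).map_eq] at this
      exact this.symm
    have i0 : Integrable (fun y => V j y) ν :=
      Integrable.of_bound (hVmeas j).aestronglyMeasurable 2
        (Eventually.of_forall fun y => by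
          rw [Real.norm_eq_abs]
          exact hVb j y)
    calc ∫ y, V j y ∂ν ≤ ∫ y, (‖H (S^[m * j] y) - P (S^[m * j] y)‖ + ‖H y - P y‖) ∂ν := by
          refine integral_mono_ae i0 (i1.add i2) ?_
          filter_upwards [hinvj j] with y hy
          rw [hV, hy]
          have : H (S^[m * j] y) - H y = (H (S^[m * j] y) - P y) - (H y - P y) := by ring
          rw [this]
          exact norm_sub_le _ _
      _ ≤ 2 * δ := by
          rw [integral_add i1 i2, e1]
          linarith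
  have hV2 : ∀ r j : ℕ, ∀ᶠ N : ℕ in L,
      ∑ n ∈ range N, V j (S^[n] (S^[r] y)) ≤ (2 * δ + δ / 4) * N := by
    intro r j
    have h1 := (hav (fun z => V j (S^[r] z)) ((hVmeas j).comp (hLt.meas.iterate r))
      ⟨2, fun z => hVb j _⟩ (hVc r j)).2
    have h0 : ∫ z, V j (S^[r] z) ∂ν = ∫ z, V j z ∂ν := by
      have hmm : AEStronglyMeasurable (V j) (ν.map S^[r]) :=
        (hVmeas j).aestronglyMeasurable
      have := integral_map (hSi r).measurable.aemeasurable hmm
      rw [(hSi r).map_eq] at this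
      exact this.symm
    rw [h0] at h1
    have h2 := h1.eventually_lt_const (lt_of_le_of_lt (hVm j) (by linarith : 2 * δ < 2 * δ + δ / 4))
    filter_upwards [h2, hLt.le (eventually_ge_atTop 1)] with N hN hN1
    have hN0 : (0 : ℝ) < N := by exact_mod_cast hN1
    rw [div_lt_iff₀ hN0] at hN
    refine le_trans (le_of_eq ?_) hN.le
    refine Finset.sum_congr rfl fun n _ => ?_
    rw [← Function.iterate_add_apply, ← Function.iterate_add_apply, add_comm]
  have hV3 : ∀ᶠ N : ℕ in L, ∀ r ∈ range m, ∀ j ∈ range J,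
      ∑ n ∈ range N, V j (S^[n] (S^[r] y)) ≤ (2 * δ + δ / 4) * N := by
    rw [Finset.eventually_all]
    intro r _
    rw [Finset.eventually_all]
    intro j _
    exact hV2 r j
  have hmJ : (0 : ℝ) < m * J := by
    have h1 : (0 : ℝ) < m := by exact_mod_cast hm
    have h2 : (0 : ℝ) < J := by exact_mod_cast hJ
    positivity
  have hlarge : ∀ᶠ N : ℕ in atTop, (2 * (m * J) + 1 : ℝ) ≤ δ / 4 * N := by
    obtain ⟨N₀, hN₀⟩ := exists_nat_ge ((2 * (m * J) + 1 : ℝ) / (δ / 4))
    filter_upwards [eventually_ge_atTop N₀] with N hN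
    have h1 : ((2 * (m * J) + 1 : ℝ) / (δ / 4)) ≤ N := hN₀.trans (by exact_mod_cast hN)
    rw [div_le_iff₀ (by positivity)] at h1
    linarith
  filter_upwards [hLt.le hJN, hV3, hLt.le hlarge] with N h1 h2 h3
  have h4 := core (fun n => H (S^[n] y)) (fun n => hH _) m J N
  have h5 : ∑ r ∈ range m, ∑ j ∈ range J, ∑ x ∈ range N,
      ‖H (S^[x + r + m * j] y) - H (S^[x + r] y)‖ ≤ m * J * ((2 * δ + δ / 4) * N) := by
    have h6 : ∀ r ∈ range m, ∑ j ∈ range J, ∑ x ∈ range N,
        ‖H (S^[x + r + m * j] y) - H (S^[x + r] y)‖ ≤ J * ((2 * δ + δ / 4) * N) := by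
      intro r hr
      have h7 : ∀ j ∈ range J, ∑ x ∈ range N,
          ‖H (S^[x + r + m * j] y) - H (S^[x + r] y)‖ ≤ (2 * δ + δ / 4) * N := by
        intro j hj
        refine le_trans (le_of_eq ?_) (h2 r hr j hj)
        refine Finset.sum_congr rfl fun x _ => ?_
        have e1 : S^[x] (S^[r] y) = S^[x + r] y := (Function.iterate_add_apply S x r y).symm
        have e2 : S^[m * j] (S^[x + r] y) = S^[x + r + m * j] y := by
          rw [← Function.iterate_add_apply, add_comm]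
        rw [hV, e1, e2]
      refine (Finset.sum_le_sum h7).trans (le_of_eq ?_)
      simp
    refine (Finset.sum_le_sum h6).trans (le_of_eq ?_)
    simp
    ring
  have h6 : (m * J : ℝ) * ‖MS (fun n => H (S^[n] y)) N‖ ≤ (m * J : ℝ) * (3 * δ * N) := by
    have h7 := mul_le_mul_of_nonneg_left h3 hmJ.le
    have h8 : (m * J : ℝ) * (3 * δ * N) = δ / 2 * (m * J * N) + m * J * ((2 * δ + δ / 4) * N) +
        m * J * (δ / 4 * N) := by ring
    rw [h8]
    linarith
  exact le_of_mul_le_mul_left h6 hmJ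


theorem ms_smul (c : ℂ) (a : ℕ → ℂ) (N : ℕ) : MS (fun n => c * a n) N = c * MS a N := by
  unfold MS
  rw [Finset.mul_sum]
  refine Finset.sum_congr rfl fun n _ => ?_
  ring

/-- **VOP** -/
theorem st_VOP (hVPH : ST_VPH) (vav : ST_VAV) : ST_VOP := by
  intro Y _ _ _ _ L S y ν hLt m G hm hG hper η hη
  have := hLt.prob
  obtain ⟨hmp, hav⟩ := vav Y L S y ν hLt
  refine ⟨(η / 3) ^ 2, by positivity, fun H hH => ?_⟩
  -- the measurable version
  obtain ⟨G', hG'm, hGG'⟩ : ∃ G' : Y → ℂ, Measurable G' ∧ G =ᵐ[ν] G' :=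
    ⟨hG.1.mk G, hG.1.stronglyMeasurable_mk.measurable, hG.1.ae_eq_mk⟩
  have hper' : ∀ᵐ y ∂ν, G' (S^[m] y) = G' y := by
    filter_upwards [hper, hGG', (hmp.iterate m).quasiMeasurePreserving.ae hGG'] with y h1 h2 h3
    rw [← h3, ← h2, h1]
  -- the bound
  obtain ⟨B, hB1, hB⟩ : ∃ B : ℝ, 1 ≤ B ∧ ∀ y, ‖H y‖ ≤ B :=
    ⟨max 1 ‖H‖, le_max_left _ _, fun y => (H.norm_coe_le_norm y).trans (le_max_right _ _)⟩
  have hB0 : 0 < B := lt_of_lt_of_le zero_lt_one hB1
  have hBc : (B : ℂ) ≠ 0 := by exact_mod_cast hB0.ne'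
  have hnB : ‖((B : ℂ))⁻¹‖ = B⁻¹ := by
    rw [norm_inv, Complex.norm_real, Real.norm_of_nonneg hB0.le]
  have h1 := hVPH Y L S y ν hLt m ((B : ℂ)⁻¹ • H) (fun y => (B : ℂ)⁻¹ * G' y) (η / (3 * B)) hm
    (by positivity) (fun y => by
      rw [ContinuousMap.smul_apply, smul_eq_mul, norm_mul, hnB]
      rw [inv_mul_le_one₀ hB0]
      exact hB y)
    (hG'm.const_mul _) ((hG.ae_eq hGG').const_mul _)
    (by
      filter_upwards [hper'] with y hy
      rw [hy])
    (by
      have e1 : ∫ y, ‖((B : ℂ)⁻¹ • H) y - (B : ℂ)⁻¹ * G' y‖ ^ 2 ∂ν =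
          (B⁻¹) ^ 2 * ∫ y, ‖H y - G y‖ ^ 2 ∂ν := by
        rw [← integral_const_mul]
        refine integral_congr_ae ?_
        filter_upwards [hGG'] with y hy
        rw [ContinuousMap.smul_apply, smul_eq_mul, ← mul_sub, norm_mul, hnB, mul_pow, hy]
      rw [e1]
      calc B⁻¹ ^ 2 * ∫ y, ‖H y - G y‖ ^ 2 ∂ν ≤ B⁻¹ ^ 2 * (η / 3) ^ 2 :=
            mul_le_mul_of_nonneg_left hH (by positivity)
        _ = (η / (3 * B)) ^ 2 := by
            field_simp)
  filter_upwards [h1] with N hN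
  have e2 : MS (fun n => ((B : ℂ)⁻¹ • H) (S^[n] y)) N = (B : ℂ)⁻¹ * MS (fun n => H (S^[n] y)) N := by
    rw [← ms_smul]
    rfl
  rw [e2, norm_mul, hnB] at hN
  have h3 : ‖MS (fun n => H (S^[n] y)) N‖ ≤ B * (3 * (η / (3 * B)) * N) := by
    rw [← div_le_iff₀' hB0, div_eq_inv_mul]
    exact hN
  refine h3.trans (le_of_eq ?_)
  field_simp

end Pool.Agent.Helper72.ZU
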