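import Pool.Agent.Helper40.ZU.Stmts2

/-!
Row XFR of the sheet ZU (MP_7a8f48_an): measurable frames.
-/

open MeasureTheory Filter Topology Finset
open scoped ComplexConjugate

namespace Pool.Agent.Helper72.ZU

open Pool.Agent.Helper40.ZU
open Pool.Agent.Helper16.AZ (E Op)
open Pool.Agent.Helper40.IZ (Fr cf ST_HMS)

section frame

variable {M : Type} [MetricSpace M] [CompactSpace M] [MeasurableSpace M] [BorelSpace M]
  {μ : Measure M} [IsProbabilityMeasure μ] {d : ℕ} (e : Fin d → C(M, ℂ))

/-- the vector of the conjugate values -/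
noncomputable def WW (a : M) : E d := WithLp.toLp 2 fun i => conj (e i a)

omit [CompactSpace M] [MeasurableSpace M] [BorelSpace M] in
theorem WW_apply (a : M) (i : Fin d) : WW e a i = conj (e i a) := rfl

omit [CompactSpace M] [MeasurableSpace M] [BorelSpace M] in
theorem WW_cont : Continuous (WW e) := by
  unfold WW
  have h1 : Continuous fun a : M => fun i : Fin d => conj (e i a) :=
    continuous_pi fun i => Complex.continuous_conj.comp (e i).continuous
  exact (PiLp.continuous_toLp 2 _).comp h1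

theorem int_smul_cont (f : M → ℂ) (V : M → E d) (hf : Continuous f) (hV : Continuous V) :
    Integrable (fun a => f a • V a) μ :=
  (hf.smul hV).integrable_of_hasCompactSupport (HasCompactSupport.of_compactSpace _)

theorem cf_eq (f : C(M, ℂ)) : cf μ e (fun a => f a) = ∫ a, f a • WW e a ∂μ := by
  ext i
  have h1 := (EuclideanSpace.proj i : E d →L[ℂ] ℂ).integral_comp_comm
    (int_smul_cont (μ := μ) (fun a => f a) (WW e) f.continuous (WW_cont e))
  have h2 : (∫ a, f a • WW e a ∂μ) i = (EuclideanSpace.proj i : E d →L[ℂ] ℂ)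
      (∫ a, f a • WW e a ∂μ) := rfl
  rw [h2, ← h1]
  show ∫ a, conj (e i a) * f a ∂μ = _
  refine integral_congr_ae (Eventually.of_forall fun a => ?_)
  show conj (e i a) * f a = f a * conj (e i a)
  ring

/-- the isometries act by unitary operators -/
theorem WW_iso (hμo : ∀ U : Set M, IsOpen U → U.Nonempty → 0 < μ U)
    (hμi : ∀ k : M ≃ᵢ M, MeasurePreserving k μ μ) (hFr : Fr μ e) (k : M ≃ᵢ M) :
    ∃ R ∈ unitary (Op d), ∀ a, WW e (k a) = R (WW e a) := by
  obtain ⟨R, hR, hRf⟩ := hFr.2 k.symm
  refine ⟨R, hR, ?_⟩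
  have hop : μ.IsOpenPosMeasure := ⟨fun U hU hne => (hμo U hU hne).ne'⟩
  obtain ⟨V, hV⟩ : ∃ V : M → E d, ∀ a, V a = WW e (k a) - R (WW e a) := ⟨_, fun _ => rfl⟩
  have hVc : Continuous V := by
    have : V = fun a => WW e (k a) - R (WW e a) := funext hV
    rw [this]
    exact ((WW_cont e).comp k.continuous).sub (R.continuous.comp (WW_cont e))
  have h1 : ∀ f : C(M, ℂ), ∫ a, f a • V a ∂μ = 0 := by
    intro f
    have i1 := int_smul_cont (μ := μ) (fun a => f a) (fun a => WW e (k a)) f.continuous
      ((WW_cont e).comp k.continuous)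
    have i2 := int_smul_cont (μ := μ) (fun a => f a) (fun a => R (WW e a)) f.continuous
      (R.continuous.comp (WW_cont e))
    have e1 : ∫ a, f a • V a ∂μ = ∫ a, f a • WW e (k a) ∂μ - ∫ a, f a • R (WW e a) ∂μ := by
      rw [← integral_sub i1 i2]
      refine integral_congr_ae (Eventually.of_forall fun a => ?_)
      show f a • V a = _
      rw [hV, smul_sub]
    have e2 : ∫ a, f a • R (WW e a) ∂μ = R (∫ a, f a • WW e a ∂μ) := by
      rw [← R.integral_comp_comm (int_smul_cont (μ := μ) (fun a => f a) (WW e) f.continuous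
        (WW_cont e))]
      refine integral_congr_ae (Eventually.of_forall fun a => ?_)
      show f a • R (WW e a) = R (f a • WW e a)
      rw [map_smul]
    have e3 : ∫ a, f a • WW e (k a) ∂μ = ∫ a, f (k.symm a) • WW e a ∂μ := by
      have := (hμi k).integral_comp k.toHomeomorph.measurableEmbedding
        (fun a => f (k.symm a) • WW e a)
      rw [← this]
      refine integral_congr_ae (Eventually.of_forall fun a => ?_)
      show f a • WW e (k a) = f (k.symm (k a)) • WW e (k a)
      rw [k.symm_apply_apply]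
    have e4 := hRf f
    have e5 := cf_eq (μ := μ) e (f.comp ⟨k.symm, k.symm.continuous⟩)
    have e6 : cf μ e (fun a => (f.comp ⟨k.symm, k.symm.continuous⟩ : C(M, ℂ)) a) =
        cf μ e (fun m => f (k.symm m)) := rfl
    rw [e6, e4] at e5
    rw [e1, e2, e3, ← cf_eq, e5]
    exact sub_self _
  intro a
  have h2 : ∀ i : Fin d, ∀ a, V a i = 0 := by
    intro i
    have hVi : Continuous fun a => V a i := (EuclideanSpace.proj i : E d →L[ℂ] ℂ).continuous.comp hVc
    have h3 : ∫ a, conj (V a i) • V a ∂μ = 0 :=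
      h1 ⟨fun a => conj (V a i), Complex.continuous_conj.comp hVi⟩
    have h4 := (EuclideanSpace.proj i : E d →L[ℂ] ℂ).integral_comp_comm
      (int_smul_cont (μ := μ) (fun a => conj (V a i)) V (Complex.continuous_conj.comp hVi) hVc)
    have h5 : ∫ a, ‖V a i‖ ^ 2 ∂μ = 0 := by
      have h6 : ∫ a, ((‖V a i‖ ^ 2 : ℝ) : ℂ) ∂μ = 0 := by
        rw [← map_zero (EuclideanSpace.proj i : E d →L[ℂ] ℂ), ← h3, ← h4]
        refine integral_congr_ae (Eventually.of_forall fun a => ?_)
        show ((‖V a i‖ ^ 2 : ℝ) : ℂ) = conj (V a i) * V a i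
        rw [mul_comm, Complex.mul_conj, Complex.normSq_eq_norm_sq]
      rw [integral_complex_ofReal] at h6
      exact_mod_cast h6
    have h7 : Continuous fun a => ‖V a i‖ ^ 2 := (hVi.norm).pow 2
    have h8 := (integral_eq_zero_iff_of_nonneg (fun a => sq_nonneg ‖V a i‖)
      (h7.integrable_of_hasCompactSupport (HasCompactSupport.of_compactSpace _))).1 h5
    have h9 := (Continuous.ae_eq_iff_eq μ h7 (continuous_const (y := (0 : ℝ)))).1 h8
    intro a
    have h10 := congrFun h9 a
    simpa using h10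
  have h3 : V a = 0 := by
    ext i
    exact h2 i a
  rw [hV] at h3
  exact sub_eq_zero.1 h3

end frame

/-- **XFR** -/
theorem st_XFR (xpw : ST_XPW) (hms : ST_HMS) : ST_XFR := by
  classical
  intro X Y _ _ _ _ π S T m _ M _ _ _ _ _ Y₀ h g hπ hc hT hTri
  obtain ⟨μ, hμp, hμo, hμi⟩ := hms M
  obtain ⟨d, e, hFr, hsep⟩ := xpw M μ hμo hμi
  -- bounds
  have hC : ∀ j, ∃ C : ℝ, 1 ≤ C ∧ ∀ a, ‖WW (e j) a‖ ≤ C := by
    intro j
    obtain ⟨C, hC⟩ := (isCompact_range (WW_cont (e j))).isBounded.exists_norm_le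
    exact ⟨max 1 C, le_max_left _ _, fun a => (hC _ ⟨a, rfl⟩).trans (le_max_right _ _)⟩
  choose C hC1 hCb using hC
  have hC0 : ∀ j, (C j : ℂ) ≠ 0 := fun j => by
    have := lt_of_lt_of_le one_pos (hC1 j)
    exact_mod_cast this.ne'
  -- the unitary operators
  choose U hU hUW using fun j => WW_iso (μ := μ) (e j) hμo hμi (hFr j)
  -- the vectors
  obtain ⟨v, hv⟩ : ∃ v : ∀ j, Fin (d j) → Y → E (d j), ∀ j l y, v j l y =
      ∫ a, conj (WW (e j) a l) • WW (e j) (h (T (g (y, a)))) ∂μ := ⟨_, fun _ _ _ => rfl⟩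
  have hvm : ∀ j l, StronglyMeasurable (v j l) := by
    intro j l
    have hf1 : StronglyMeasurable fun q : Y × M => (starRingEnd ℂ) (WW (e j) q.2 l) := by
      have h2 : Continuous fun a : M => (starRingEnd ℂ) (WW (e j) a l) :=
        Complex.continuous_conj.comp
          ((EuclideanSpace.proj l : E (d j) →L[ℂ] ℂ).continuous.comp (WW_cont (e j)))
      exact h2.stronglyMeasurable.comp_measurable measurable_snd
    have hf2 : StronglyMeasurable fun q : Y × M => WW (e j) (h (T (g q))) :=
      (WW_cont (e j)).stronglyMeasurable.comp_measurable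
          (hTri.mh.comp (hT.comp hTri.mg))
    have h1 : StronglyMeasurable fun q : Y × M =>
        conj (WW (e j) q.2 l) • WW (e j) (h (T (g q))) := hf1.smul hf2
    have h2 : v j l = fun y => ∫ a, conj (WW (e j) a l) • WW (e j) (h (T (g (y, a)))) ∂μ :=
      funext fun y => hv j l y
    rw [h2]
    exact h1.integral_prod_right
  obtain ⟨Ψ, hΨ⟩ : ∃ Ψ : ∀ j, Y → Op (d j), ∀ j y, Ψ j y =
      ∑ l, ContinuousLinearMap.smulRight (EuclideanSpace.proj l : E (d j) →L[ℂ] ℂ) (v j l y) :=
    ⟨_, fun _ _ => rfl⟩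
  have hΨm : ∀ j, StronglyMeasurable (Ψ j) := by
    intro j
    have h1 : Ψ j = fun y => ∑ l, ContinuousLinearMap.smulRight
        (EuclideanSpace.proj l : E (d j) →L[ℂ] ℂ) (v j l y) := funext fun y => hΨ j y
    rw [h1]
    refine Finset.stronglyMeasurable_fun_sum _ fun l _ => ?_
    have h2 : Continuous fun z : E (d j) => ContinuousLinearMap.smulRight
        (EuclideanSpace.proj l : E (d j) →L[ℂ] ℂ) z :=
      (ContinuousLinearMap.smulRightL ℂ (E (d j)) (E (d j))
        (EuclideanSpace.proj l : E (d j) →L[ℂ] ℂ)).continuous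
    exact h2.comp_stronglyMeasurable (hvm j l)
  -- the value on `Y₀`
  have horth : ∀ j l, ∫ a, conj (WW (e j) a l) • WW (e j) a ∂μ =
      (EuclideanSpace.single l (1 : ℂ) : E (d j)) := by
    intro j l
    have h0 : Continuous fun a : M => conj (WW (e j) a l) :=
      Complex.continuous_conj.comp
        ((EuclideanSpace.proj l : E (d j) →L[ℂ] ℂ).continuous.comp (WW_cont (e j)))
    ext i
    have h1 := (EuclideanSpace.proj i : E (d j) →L[ℂ] ℂ).integral_comp_comm
      (int_smul_cont (μ := μ) (fun a => conj (WW (e j) a l)) (WW (e j)) h0 (WW_cont (e j)))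
    have h2 : (∫ a, conj (WW (e j) a l) • WW (e j) a ∂μ) i =
        (EuclideanSpace.proj i : E (d j) →L[ℂ] ℂ) (∫ a, conj (WW (e j) a l) • WW (e j) a ∂μ) :=
      rfl
    rw [h2, ← h1, PiLp.single_apply]
    have h3 := (hFr j).1 i l
    rw [← h3]
    refine integral_congr_ae (Eventually.of_forall fun a => ?_)
    show conj (conj (e j l a)) * conj (e j i a) = conj (e j i a) * e j l a
    rw [Complex.conj_conj, mul_comm]
  have hkey : ∀ j, ∀ y ∈ Y₀, ∃ R ∈ unitary (Op (d j)), Ψ j y = R ∧
      ∀ x, π x = y → WW (e j) (h (T x)) = R (WW (e j) (h x)) := by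
    intro j y hy
    obtain ⟨k, hk⟩ := hTri.iso y hy
    refine ⟨U j k, hU j k, ?_, ?_⟩
    · have h1 : ∀ l, v j l y = U j k (EuclideanSpace.single l (1 : ℂ)) := by
        intro l
        have h0 : Continuous fun a : M => conj (WW (e j) a l) :=
          Complex.continuous_conj.comp
            ((EuclideanSpace.proj l : E (d j) →L[ℂ] ℂ).continuous.comp (WW_cont (e j)))
        rw [hv, ← horth, ← (U j k).integral_comp_comm
          (int_smul_cont (μ := μ) (fun a => conj (WW (e j) a l)) (WW (e j)) h0 (WW_cont (e j)))]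
        refine integral_congr_ae (Eventually.of_forall fun a => ?_)
        show conj (WW (e j) a l) • WW (e j) (h (T (g (y, a)))) =
          U j k (conj (WW (e j) a l) • WW (e j) a)
        rw [hk _ (hTri.hg y hy a).1, (hTri.hg y hy a).2, hUW, map_smul]
      ext z : 1
      rw [hΨ, _root_.sum_apply]
      have h2 : z = ∑ l, z l • (EuclideanSpace.single l (1 : ℂ) : E (d j)) := by
        ext i
        have h4 : (∑ l, z l • (EuclideanSpace.single l (1 : ℂ) : E (d j))) i =
            ∑ l, z l * (Pi.single l (1 : ℂ) : Fin (d j) → ℂ) i := by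
          simp [Finset.sum_apply]
        rw [h4, Finset.sum_eq_single i]
        · simp
        · intro b _ hb
          rw [Pi.single_eq_of_ne hb.symm, mul_zero]
        · intro hi
          exact absurd (Finset.mem_univ i) hi
      conv_rhs => rw [h2]
      rw [map_sum]
      refine Finset.sum_congr rfl fun l _ => ?_
      rw [ContinuousLinearMap.smulRight_apply, h1, map_smul]
      rfl
    · intro x hx
      rw [hk x hx, hUW]
  refine ⟨d, fun j y => if y ∈ Y₀ then Ψ j y else 1,
    fun j x => (C j : ℂ)⁻¹ • WW (e j) (h x), ?_, ?_⟩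
  · intro j
    refine ⟨?_, ?_, ?_, ?_, ?_⟩
    · exact StronglyMeasurable.ite hTri.ms (hΨm j) stronglyMeasurable_const
    · intro y
      by_cases hy : y ∈ Y₀
      · simp only [if_pos hy]
        obtain ⟨R, hR, hR1, -⟩ := hkey j y hy
        rw [hR1]
        exact hR
      · simp only [if_neg hy]
        exact one_mem _
    · exact ((WW_cont (e j)).measurable.comp hTri.mh).const_smul ((C j : ℂ)⁻¹)
    · intro x
      rw [norm_smul, norm_inv, Complex.norm_real, Real.norm_eq_abs,
        abs_of_pos (lt_of_lt_of_le one_pos (hC1 j))]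
      rw [inv_mul_le_one₀ (lt_of_lt_of_le one_pos (hC1 j))]
      exact hCb j _
    · have h1 : ∀ᵐ x ∂m, π x ∈ Y₀ := by
        have h2 : ∀ᵐ y ∂(m.map π), y ∈ Y₀ := by
          rw [ae_iff]
          exact hTri.full
        exact ae_of_ae_map hπ.aemeasurable h2
      filter_upwards [h1] with x hx
      obtain ⟨R, hR, hR1, hR2⟩ := hkey j (π x) hx
      rw [if_pos hx, hR1, hR2 x rfl, map_smul]
  · intro s hs
    obtain ⟨q, hq⟩ : ∃ q : X → Y × (∀ j, E (d j)), ∀ x, q x =
        (π x, fun j => (C j : ℂ)⁻¹ • WW (e j) (h x)) := ⟨_, fun _ => rfl⟩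
    have hqe : q = fun x => (π x, fun j => (C j : ℂ)⁻¹ • WW (e j) (h x)) := funext hq
    have hwm : ∀ j, Measurable fun x => (C j : ℂ)⁻¹ • WW (e j) (h x) := fun j =>
      ((WW_cont (e j)).measurable.comp hTri.mh).const_smul ((C j : ℂ)⁻¹)
    have hqm : Measurable q := by
      rw [hqe]
      exact hπ.prodMk (measurable_pi_iff.2 hwm)
    have hinj : Set.InjOn q (π ⁻¹' Y₀) := by
      intro x hx x' hx' he
      rw [hq, hq] at he
      have h1 : π x = π x' := congrArg Prod.fst he
      have h2 : h x = h x' := by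
        refine hsep _ _ fun n i => ?_
        have h3 := congrFun (congrArg Prod.snd he) n
        simp only at h3
        have h4 : WW (e n) (h x) = WW (e n) (h x') :=
          smul_right_injective _ (inv_ne_zero (hC0 n)) h3
        have h5 : conj (e n i (h x)) = conj (e n i (h x')) := by
          rw [← WW_apply, ← WW_apply, h4]
        exact (starRingEnd ℂ).injective h5
      rw [← hTri.gh x hx, ← hTri.gh x' hx', h1, h2]
    have hsm : MeasurableSet (s ∩ π ⁻¹' Y₀) := hs.inter (hπ hTri.ms)
    have him : MeasurableSet (q '' (s ∩ π ⁻¹' Y₀)) :=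
      hsm.image_of_measurable_injOn hqm (hinj.mono Set.inter_subset_right)
    refine ⟨q ⁻¹' (q '' (s ∩ π ⁻¹' Y₀)), ?_, ?_⟩
    · have h1 : Measurable[MeasurableSpace.comap π inferInstance ⊔
          (⨆ j, MeasurableSpace.comap (fun x => (C j : ℂ)⁻¹ • WW (e j) (h x)) inferInstance)] q := by
        rw [hqe]
        refine Measurable.prodMk ?_ ?_
        · exact Measurable.mono (comap_measurable π) le_sup_left le_rfl
        · refine @measurable_pi_lambda X ℕ (fun j => E (d j)) (MeasurableSpace.comap π inferInstance ⊔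
              (⨆ j, MeasurableSpace.comap (fun x => (C j : ℂ)⁻¹ • WW (e j) (h x)) inferInstance))
              _ _ fun j => ?_
          refine Measurable.mono (comap_measurable _) ?_ le_rfl
          exact (le_iSup (fun j => MeasurableSpace.comap
            (fun x => (C j : ℂ)⁻¹ • WW (e j) (h x)) inferInstance) j).trans le_sup_right
      exact h1 him
    · have h1 : ∀ᵐ x ∂m, π x ∈ Y₀ := by
        have h2 : ∀ᵐ y ∂(m.map π), y ∈ Y₀ := by
          rw [ae_iff]
          exact hTri.full
        exact ae_of_ae_map hπ.aemeasurable h2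
      filter_upwards [h1] with x hx
      refine propext ⟨fun hxs => ?_, ?_⟩
      · exact ⟨x, ⟨hxs, hx⟩, rfl⟩
      · rintro ⟨x', ⟨hxs', hx'⟩, he⟩
        have : x' = x := hinj hx' hx he
        rw [← this]
        exact hxs'

end Pool.Agent.Helper72.ZU
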