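import Pool.Agent.Helper40.ZU.Stmts2
import Pool.Agent.Helper89.GY.MOD

/-!
Row XIS of the sheet ZU (MP_7a8f48_an): the trivialisation of an isometric extension.
-/

open MeasureTheory Filter Topology Finset

namespace Pool.Agent.Helper72.ZU

open Pool.Agent.Helper40.ZU
open Pool.Agent.Helper98.GY (IsoExt Emb)
open Pool.Agent.Helper89.GY (mod_surj emb_inj)

/-- **XIS** -/
theorem st_XIS (xsl : ST_XSL) (xmo : ST_XMO) : ST_XIS := by
  intro X Y _ _ _ _ _ _ _ _ π S T ρ ν _ hI hS hE hne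
  obtain ⟨M, iM, iC, iN, Y₀, hY₀, hν, hinv, hG, hY⟩ := xmo X Y π S T ρ ν hI hS hE hne
  let iB : MeasurableSpace M := borel M
  have iBS : BorelSpace M := ⟨rfl⟩
  let jB : MeasurableSpace C(M, X) := borel C(M, X)
  have jBS : BorelSpace C(M, X) := ⟨rfl⟩
  have hYne : Y₀.Nonempty := by
    by_contra h
    rw [Set.not_nonempty_iff_eq_empty] at h
    rw [h, Set.compl_empty, measure_univ] at hν
    exact one_ne_zero hν
  have hGne : ({p : Y × C(M, X) | p.2 ∈ Emb π ρ M p.1} : Set (Y × C(M, X))).Nonempty := by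
    obtain ⟨y, hy⟩ := hYne
    obtain ⟨θ, hθ⟩ := (hY y hy).1
    exact ⟨(y, θ), hθ⟩
  obtain ⟨θ, hθm, hθ⟩ := xsl Y C(M, X) _ hG hGne
  have hθ' : ∀ y ∈ Y₀, θ y ∈ Emb π ρ M y := by
    intro y hy
    obtain ⟨z, hz⟩ := (hY y hy).1
    exact hθ y ⟨z, hz⟩
  -- the map `g`
  obtain ⟨g, hg⟩ : ∃ g : Y × M → X, ∀ p, g p = θ p.1 p.2 := ⟨fun p => θ p.1 p.2, fun _ => rfl⟩
  have hgm : Measurable g := by
    have h1 : g = (fun q : C(M, X) × M => q.1 q.2) ∘ fun p : Y × M => (θ p.1, p.2) := by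
      funext p
      rw [hg]
      rfl
    rw [h1]
    have h2 : Continuous fun q : C(M, X) × M => q.1 q.2 := by fun_prop
    exact h2.measurable.comp ((hθm.comp measurable_fst).prodMk measurable_snd)
  have hgπ : ∀ y ∈ Y₀, ∀ a, π (g (y, a)) = y := by
    intro y hy a
    rw [hg]
    exact (hθ' y hy).1 a
  have hginj : Set.InjOn g (Y₀ ×ˢ (Set.univ : Set M)) := by
    rintro ⟨y, a⟩ ⟨hy, -⟩ ⟨y', a'⟩ ⟨hy', -⟩ he
    have h1 : y = y' := by
      rw [← hgπ y hy a, ← hgπ y' hy' a', he]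
    subst h1
    rw [hg, hg] at he
    have h2 : a = a' := emb_inj hI (hθ' y hy) he
    rw [h2]
  -- the coordinate
  have hex : ∀ x, ∃ a : M, π x ∈ Y₀ → g (π x, a) = x := by
    intro x
    by_cases hx : π x ∈ Y₀
    · obtain ⟨a, ha⟩ := (hY _ hx).2 _ (hθ' _ hx) x rfl
      exact ⟨a, fun _ => by rw [hg]; exact ha⟩
    · exact ⟨Classical.arbitrary M, fun h => absurd h hx⟩
  classical
  choose h₀ hh₀ using hex
  obtain ⟨h, hh⟩ : ∃ h : X → M, ∀ x, (π x ∈ Y₀ → h x = h₀ x) ∧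
      (π x ∉ Y₀ → h x = Classical.arbitrary M) :=
    ⟨fun x => if π x ∈ Y₀ then h₀ x else Classical.arbitrary M, fun x =>
      ⟨fun hx => if_pos hx, fun hx => if_neg hx⟩⟩
  have hgh : ∀ x, π x ∈ Y₀ → g (π x, h x) = x := by
    intro x hx
    rw [(hh x).1 hx]
    exact hh₀ x hx
  have hhg : ∀ y ∈ Y₀, ∀ a : M, h (g (y, a)) = a := by
    intro y hy a
    have h1 : π (g (y, a)) ∈ Y₀ := by
      rw [hgπ y hy]
      exact hy
    have h2 := hgh (g (y, a)) h1
    rw [hgπ y hy] at h2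
    have h3 := hginj (show (y, h (g (y, a))) ∈ Y₀ ×ˢ (Set.univ : Set M) from ⟨hy, trivial⟩)
      (show (y, a) ∈ Y₀ ×ˢ (Set.univ : Set M) from ⟨hy, trivial⟩) h2
    exact congrArg Prod.snd h3
  have hhm : Measurable h := by
    intro A hA
    have h1 : MeasurableSet (g '' (Y₀ ×ˢ A)) :=
      MeasurableSet.image_of_measurable_injOn (hY₀.prod hA) hgm
        (hginj.mono (Set.prod_mono le_rfl (Set.subset_univ _)))
    have h2 : h ⁻¹' A = g '' (Y₀ ×ˢ A) ∪
        ((π ⁻¹' Y₀)ᶜ ∩ {_x : X | (Classical.arbitrary M) ∈ A}) := by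
      ext x
      constructor
      · intro hx
        by_cases hx0 : π x ∈ Y₀
        · exact Or.inl ⟨(π x, h x), ⟨hx0, hx⟩, hgh x hx0⟩
        · refine Or.inr ⟨hx0, ?_⟩
          have h3 : h x ∈ A := hx
          rw [(hh x).2 hx0] at h3
          exact h3
      · rintro (⟨⟨y, a⟩, ⟨hy, ha⟩, rfl⟩ | ⟨hx0, hx⟩)
        · show h (g (y, a)) ∈ A
          rw [hhg y hy]
          exact ha
        · show h x ∈ A
          rw [(hh x).2 hx0]
          exact hx
    rw [h2]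
    refine h1.union (((hI.1.measurable hY₀).compl).inter ?_)
    exact MeasurableSet.const _
  refine ⟨M, iM, iC, iN, iB, iBS, Y₀, h, g, hY₀, hν, hinv, hhm, hgm,
    fun y hy a => ⟨hgπ y hy a, hhg y hy a⟩, hgh, ?_⟩
  intro y hy
  obtain ⟨k, hk⟩ : ∃ k : M → M, ∀ a, k a = h (T (g (y, a))) := ⟨_, fun _ => rfl⟩
  have hSy := hinv y hy
  have hπT : ∀ a, π (T (g (y, a))) = S y := by
    intro a
    rw [hI.2.1, hgπ y hy]
  have hk2 : ∀ a, g (S y, k a) = T (g (y, a)) := by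
    intro a
    have h1 := hgh (T (g (y, a))) (by rw [hπT]; exact hSy)
    rw [hπT, ← hk] at h1
    exact h1
  have hiso : Isometry k := by
    refine Isometry.of_dist_eq ?_
    intro a b
    have h1 := (hθ' _ hSy).2 (k a) (k b)
    have h2 := (hθ' _ hy).2 a b
    have h3 := hk2 a
    have h4 := hk2 b
    rw [hg] at h3 h4
    simp only at h3 h4
    rw [← h1, h3, h4, hI.2.2.2.2.2.2 _ _ (by rw [hgπ y hy, hgπ y hy]), ← h2, hg, hg]
  have hsurj := mod_surj hiso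
  refine ⟨⟨Equiv.ofBijective k ⟨hiso.injective, hsurj⟩, hiso⟩, ?_⟩
  intro x hx
  have h1 : g (y, h x) = x := by
    rw [← hx]
    exact hgh x (by rw [hx]; exact hy)
  show h (T x) = k (h x)
  rw [hk, h1]

end Pool.Agent.Helper72.ZU
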